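import Pool.Agent.Helper42.PP1.One
import Pool.Agent.Helper64.PP.PEXT
import Pool.Agent.Helper96.LE.LOB
import Pool.Agent.Helper16.LE.LOG
import Pool.Agent.Helper58.LE.PSI
import Pool.Agent.Helper22.PP.POMG
import Pool.Agent.Helper91.PP.PSEP
import Pool.Agent.Helper74.PP.PLFI
import Pool.Agent.Helper30.PP.PFUN
import Pool.Agent.Helper16.PP.PUPR

/-!
# Project PP, the case `m = 1` (`χ₀ = 1`): existence of `TauN`

`M = K`, `M₁ = K₁`, `δ = 1`, `P = X - 1`. There are `|S| + |T|` independent local conditions.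
-/

set_option autoImplicit false

namespace Pool.Agent.Helper94.PP1

open NumberField Polynomial Module IsDedekindDomain Pool.Agent.Helper51.SigLeo
open Pool.Agent.Helper51.RP Pool.Agent.Helper42.RD Pool.Agent.Helper42.PP
open Pool.Agent.Helper42.PP1 (TauN SitW subs_aut freeP_self sitW_one)
open Pool.Agent.Helper40.RS (bel gw bel_smul lies conj_of_bel free_gw absNorm_free val_smul)
open Pool.Agent.Helper13.RD (eq_gw ram_free exists_unif)
open Pool.Agent.Helper40.RD (bel_of_above ordW)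
open Pool.Agent.Helper64.PP (norm_dvd omt_dvd exists_al cancel_aux locSig_mul_pow pol_ap)

section pol

variable {p : ℕ} [Fact p.Prime] {K : Type} [Field K]

theorem pol_one (x : Kˣ) : pol (X - 1 : (ZMod p)[X]) (1 : K ≃ₐ[K] K) x = x ^ p := by
  have hp : p.Prime := Fact.out
  have h1 : (1 : ZMod p) ≠ 0 := one_ne_zero
  have hs : (X - 1 : (ZMod p)[X]).support = {0, 1} := by
    ext i
    rw [Polynomial.mem_support_iff, Finset.mem_insert, Finset.mem_singleton, coeff_sub, coeff_X, coeff_one]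
    rcases Nat.lt_or_ge i 2 with h | h
    · interval_cases i <;> simp
    · have h2 : 1 ≠ i := by omega
      have h3 : i ≠ 0 := by omega
      simp [h2, h3]
      omega
  have hact : ∀ j : ℕ, act ((1 : K ≃ₐ[K] K) ^ j) x = x := by
    intro j
    rw [one_pow]
    rfl
  rw [pol_ap, hs, Finset.prod_pair zero_ne_one, hact, hact]
  have e0 : (X - 1 : (ZMod p)[X]).coeff 0 = -1 := by
    rw [coeff_sub, coeff_X_zero, coeff_one_zero, zero_sub]
  have e1 : (X - 1 : (ZMod p)[X]).coeff 1 = 1 := by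
    rw [coeff_sub, coeff_X_one, coeff_one, if_neg one_ne_zero, sub_zero]
  rw [e0, e1, ← pow_add, ZMod.neg_val, if_neg h1, ZMod.val_one, Nat.sub_add_cancel hp.one_le]

end pol

/-- Existence of `TauN` in the general situation, from a lower bound for the local conditions. -/
theorem extW {p : ℕ} [hp : Fact p.Prime] {k : Type} [NormedField k] [NormedAlgebra ℚ_[p] k]
    [IsUltrametricDist k] {K M K₁ M₁ : Type} [Field K] [NumberField K] [Field M]
    [NumberField M] [Field K₁] [NumberField K₁] [Field M₁] [NumberField M₁] [Algebra K M]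
    [Algebra K K₁] [Algebra K M₁] [Algebra M M₁] [Algebra K₁ M₁] {ε : K₁} {δ : M ≃ₐ[K] M}
    {P : (ZMod p)[X]} (hs : SitW p K M K₁ M₁ ε δ P) (L : IwasawaLog p k) (T : Set (K →+* k))
    (B : Base p K M K₁ M₁ ε δ P) (a : K₁ˣ) (haO : OmType p K ε (a : K₁))
    (hap : ∀ Q : HeightOneSpectrum (𝓞 K₁), Q.valuation K₁ (p : K₁) < 1 →
      (p : ℤ) ∣ ordv Q (a : K₁)) (n : ℕ)
    (hlob : ∀ (𝔪₀ : Ideal (𝓞 M)) (v : Mˣ → HeightOneSpectrum (𝓞 M) → ZMod p),
      LSys δ T (up M B.S) 𝔪₀ v → ∃ F : Finset Mˣ, F.card = p ^ (P.natDegree * n) ∧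
      (∀ x ∈ F, LSat L (above T) (up M B.S) v (pol P δ x)) ∧
      ∀ x ∈ F, ∀ y ∈ F, x ≠ y → ¬ LSat L (above T) (up M B.S) v (x / y)) :
    Nonempty (TauN n B L T a) := by
  classical
  obtain ⟨_, _, _, _, _, hprim, hgen, -, hsord, hirr, hdvdP, hcopm, hc1, hc2, hnsp, -⟩ := hs
  have hp' : p.Prime := hp.out
  have hTRF : E_TRF := Pool.Agent.Helper40.RD.e_trf
  have hG1 : IsGalois M M₁ := IsGalois.tower_top_of_isGalois K M M₁
  have hG2 : IsGalois K₁ M₁ := IsGalois.tower_top_of_isGalois K K₁ M₁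
  have hδm : δ ^ finrank K M = 1 := by rw [← hsord]; exact pow_orderOf_eq_one δ
  have hm0 : 0 < finrank K M := finrank_pos
  have hcK₁ : (finrank K K₁).Coprime p := by
    have hd3 := Pool.Agent.Helper14.RD.finrank_dvd_pred p K K₁ ε hprim hgen
    have hc1 : (p - 1).Coprime p := by
      have h := hp'.one_lt
      have h2 : (p - 1).Coprime (p - 1 + 1) := by simp
      rwa [Nat.sub_add_cancel h.le] at h2
    exact Nat.Coprime.coprime_dvd_left hd3 hc1
  obtain ⟨-, -, -, hOM, -⟩ := Pool.Agent.Helper22.PP.p_omg p K K₁ ε hprim hgen hcK₁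
  obtain ⟨hSf, hst, hSp, -, -, -, -⟩ := Pool.Agent.Helper16.PP.p_upr p K M B.S
  have hSp' := hSp B.abp
  -- the primes of `K₁` at which the valuation of `a` is prime to `p`
  have hQall : ∀ Q Q₁ : HeightOneSpectrum (𝓞 K₁), bel K Q = bel K Q₁ →
      ¬ (p : ℤ) ∣ ordv Q (a : K₁) → ¬ (p : ℤ) ∣ ordv Q₁ (a : K₁) := by
    intro Q Q₁ h hQ hQ₁
    exact hQ (omt_dvd haO hp'.ne_zero (conj_of_bel' (K := K) h.symm) hQ₁)
  have hQfree : ∀ Q : HeightOneSpectrum (𝓞 K₁), ¬ (p : ℤ) ∣ ordv Q (a : K₁) → FreeP K Q := by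
    intro Q hQ
    by_contra h
    exact hQ (hOM a haO Q h)
  have hQp : ∀ Q : HeightOneSpectrum (𝓞 K₁), ¬ (p : ℤ) ∣ ordv Q (a : K₁) →
      Q.valuation K₁ (p : K₁) = 1 := by
    intro Q hQ
    have h1 : Q.valuation K₁ ((p : 𝓞 K₁) : K₁) ≤ 1 := Q.valuation_le_one (K := K₁) (p : 𝓞 K₁)
    have e : ((p : 𝓞 K₁) : K₁) = p := map_natCast (algebraMap (𝓞 K₁) K₁) p
    rw [e] at h1
    by_contra h
    exact hQ (hap Q (lt_of_le_of_ne h1 h))
  have hal : ∀ q : HeightOneSpectrum (𝓞 K), ∃ α : K,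
      (∃ Q : HeightOneSpectrum (𝓞 K₁), bel K Q = q ∧ ¬ (p : ℤ) ∣ ordv Q (a : K₁)) →
      (ordv q α = 1 ∧ ∀ Q₁ : HeightOneSpectrum (𝓞 K₁), bel K Q₁ = q →
        ∃ j : ℕ, LocPow p Q₁ ((-1) ^ (p - 1) * (a : K₁) * (algebraMap K K₁ α) ^ j)) := by
    intro q
    by_cases h : ∃ Q : HeightOneSpectrum (𝓞 K₁), bel K Q = q ∧ ¬ (p : ℤ) ∣ ordv Q (a : K₁)
    · obtain ⟨Q, hQq, hQ⟩ := h
      obtain ⟨α, hα, hj⟩ := exists_al (K := K) Q (hQfree Q hQ) (a : K₁) a.ne_zero hQ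
      refine ⟨α, fun _ => ⟨?_, fun Q₁ hQ₁ => ?_⟩⟩
      · rw [ordW (M := K) Q, ram_free Q (hQfree Q hQ), Nat.cast_one, one_mul, hQq] at hα
        exact hα
      · exact (Pool.Agent.Helper8.RD.e_shf p K K₁ ε hprim (a : K₁) a.ne_zero haO Q Q₁
          (conj_of_bel' (K := K) (hQ₁.trans hQq.symm)) hQ α hj).2
    · exact ⟨0, fun h' => absurd h' h⟩
  choose alq halq using hal
  obtain ⟨R, hRdef⟩ : ∃ R : Set (HeightOneSpectrum (𝓞 M)), R = {w | w ∈ up M B.S ∧ FreeP K w ∧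
      ∃ Q : HeightOneSpectrum (𝓞 K₁), bel K Q = bel K w ∧ ¬ (p : ℤ) ∣ ordv Q (a : K₁)} :=
    ⟨_, rfl⟩
  have hRm : ∀ w, w ∈ R ↔ (w ∈ up M B.S ∧ FreeP K w ∧
      ∃ Q : HeightOneSpectrum (𝓞 K₁), bel K Q = bel K w ∧ ¬ (p : ℤ) ∣ ordv Q (a : K₁)) := by
    intro w
    rw [hRdef]
    exact Iff.rfl
  have hR : IsDat p R (fun w => alq (bel K w)) := by
    refine ⟨hSf.subset fun w hw => ((hRm w).1 hw).1, fun w hw w' h => ?_,
      fun w hw => ((hRm w).1 hw).2.1, fun w hw => ?_, fun w hw => ?_, fun w hw => ?_,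
      fun w hw w' h => ?_⟩
    · rw [hRm] at hw ⊢
      refine ⟨hst w hw.1 w' h, free_of_conj h hw.2.1, ?_⟩
      rw [bel_eq_of_conj h]
      exact hw.2.2
    · obtain ⟨-, -, Q, hQw, hQ⟩ := (hRm w).1 hw
      rw [← natCast_notMem_iff, natCast_bel (K := K), ← hQw, ← natCast_bel (K := K),
        natCast_notMem_iff]
      exact hQp Q hQ
    · obtain ⟨-, hwf, Q, hQw, hQ⟩ := (hRm w).1 hw
      rw [absNorm_free (K := K) w hwf, ← hQw, ← absNorm_free (K := K) Q (hQfree Q hQ)]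
      exact norm_dvd hprim Q (hQp Q hQ)
    · obtain ⟨-, hwf, hex⟩ := (hRm w).1 hw
      rw [ordW (M := K) w, ram_free w hwf, Nat.cast_one, one_mul]
      exact (halq _ hex).1
    · show alq (bel K w') = alq (bel K w)
      rw [bel_eq_of_conj h]
  obtain ⟨𝔪₀, v, hv, hker⟩ := d_val p k K M δ T R _ hR (up M B.S) hSf hst hSp'
    (fun w hw => ((hRm w).1 hw).1)
  obtain ⟨G, hG, hGp, hGδ⟩ := Pool.Agent.Helper90.RP.s_sub p k L K M δ T (up M B.S) 𝔪₀ v hv
  obtain ⟨F, hFc, hF1, hF2⟩ := hlob 𝔪₀ v hv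
  obtain ⟨h, hhP, hhG, hhI⟩ := (Pool.Agent.Helper91.PP.p_sep p K M (finrank K M) δ P hm0 hcopm
    hδm hirr hdvdP G hGp hGδ).2 n ⟨F, hFc, fun x hx => (hG _).2 (hF1 x hx),
      fun x hx y hy hxy hxG => hF2 x hx y hy hxy ((hG _).1 hxG)⟩
  obtain ⟨Gl, hGL, -, -, -, hGL5⟩ := Pool.Agent.Helper74.PP.p_lfi p K M (up M B.S) hSf hSp' hst
  -- the comparison
  have hcmp : ∀ w ∈ up M B.S, ∀ x : Mˣ, Pw p (pol P δ x) → (∀ W ∈ up M₁ B.S,
      LocAt p W (algebraMap K₁ M₁ (a : K₁)) (algebraMap M M₁ (x : M))) →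
      LocD p R (fun w => alq (bel K w)) w (x : M) := by
    intro w hw x hx hloc
    obtain ⟨W, hW⟩ := exists_bel (M₁ := M₁) w
    have hWw : Above W w := by rw [← hW]; exact above_bel W
    have hWQ : Above W (bel K₁ W) := above_bel W
    have hbel : bel K (bel K₁ W) = bel K w := by rw [bel_bel W, ← bel_bel (M := M) W, hW]
    have hWS : W ∈ up M₁ B.S := by
      obtain ⟨q, hq, hab⟩ := hw
      refine ⟨q, hq, ?_⟩
      rw [← bel_of_above hab, ← hbel, bel_bel W]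
      exact above_bel W
    by_cases hwR : w ∈ R
    · refine ⟨fun h => absurd hwR h, fun _ => ?_⟩
      obtain ⟨-, hwf, Q₀, hQ₀, hQ₀d⟩ := (hRm w).1 hwR
      have hQd : ¬ (p : ℤ) ∣ ordv (bel K₁ W) (a : K₁) := hQall Q₀ _ (hQ₀.trans hbel.symm) hQ₀d
      have hWd : ¬ (p : ℤ) ∣ ordv W (algebraMap K₁ M₁ (a : K₁)) := by
        rw [(hTRF p K₁ M₁ hc2 W _ hWQ).1]
        exact hQd
      obtain ⟨i, hi⟩ := (hloc W hWS).2 hWd
      obtain ⟨hα1, hα2⟩ := halq (bel K w) ⟨Q₀, hQ₀, hQ₀d⟩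
      obtain ⟨j, hj⟩ := hα2 _ hbel
      have hj' := ((hTRF p K₁ M₁ hc2 W _ hWQ).2 _).2 hj
      set α : K := alq (bel K w) with hα
      have hα0 : α ≠ 0 := by
        intro h0
        unfold ordv at hα1
        rw [h0, map_zero, WithZero.log_zero] at hα1
        norm_num at hα1
      have hαM0 : algebraMap K M₁ α ≠ 0 := by
        rw [Ne, map_eq_zero]
        exact hα0
      have e1 : algebraMap K₁ M₁ ((-1) ^ (p - 1) * (a : K₁) * (algebraMap K K₁ α) ^ j) =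
          (-1) ^ (p - 1) * algebraMap K₁ M₁ (a : K₁) * (algebraMap K M₁ α) ^ j := by
        rw [map_mul, map_mul, map_pow, map_pow, map_neg, map_one,
          ← IsScalarTower.algebraMap_apply K K₁ M₁]
      rw [e1] at hj'
      set b : M₁ := (-1) ^ (p - 1) * algebraMap K₁ M₁ (a : K₁) with hb
      have hb0 : b ≠ 0 := by
        refine mul_ne_zero (left_ne_zero_of_mul_eq_one (sg_sq (F := M₁) (p - 1))) ?_
        rw [Ne, map_eq_zero]
        exact a.ne_zero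
      have hTG : TG p W (algebraMap K M₁ α) (algebraMap M M₁ (x : M)) := by
        refine ⟨-((j * i : ℕ) : ℤ), ?_⟩
        have h5 := locPow_mul W hi (locPow_inv W (locPow_pow W hj' i))
        rw [cancel_aux _ b _ hb0 i j] at h5
        exact h5
      obtain ⟨n, hn⟩ := (tg_iff W hp'.ne_zero hαM0 _).1 hTG
      refine ⟨n, ?_⟩
      have e3 : algebraMap M M₁ (x : M) * (algebraMap K M₁ α) ^ n =
          algebraMap M M₁ ((x : M) * (algebraMap K M α) ^ n) := by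
        rw [map_mul, map_pow, ← IsScalarTower.algebraMap_apply K M M₁]
      rw [e3] at hn
      exact ((hTRF p M M₁ hc1 W w hWw).2 _).1 hn
    · refine ⟨fun _ => ?_, fun h => absurd h hwR⟩
      by_cases hwf : FreeP K w
      · have hQd : (p : ℤ) ∣ ordv (bel K₁ W) (a : K₁) := by
          by_contra h
          exact hwR ((hRm w).2 ⟨hw, hwf, _, hbel, h⟩)
        have hWd := ((hTRF p K₁ M₁ hc2 W _ hWQ).1 (a : K₁)).2 hQd
        exact ((hTRF p M M₁ hc1 W w hWw).1 _).1 ((hloc W hWS).1 hWd)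
      · exact hnsp w hwf x hx
  refine ⟨⟨h, hhP, ?_, ?_, hhI⟩⟩
  · intro j x hx
    refine hhG _ x ((hG x).2 ⟨fun w hw => (hker x w hw).2 ?_, ?_⟩)
    · have h6 := hGL5 x ((hGL x).2 hx) w hw
      refine ⟨fun _ => h6.1, fun _ => ⟨0, ?_⟩⟩
      rw [pow_zero, mul_one]
      exact h6.2
    · obtain ⟨y, hy⟩ := hx
      refine locSig_mul_pow L _ x y
        (Pool.Agent.Helper59.RP.s_bin p k L M (above T) (x * y ^ p) fun τ hτ => ?_)
      have h6 := (hy (wt p τ) (hSp' _ (wt_p p τ))).2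
      rw [← map_pow] at h6
      have h7 := norm_small_of_val p τ h6
      rw [map_sub, map_one] at h7
      rw [Units.val_mul, Units.val_pow_eq_pow_val]
      exact h7
  · intro j x hx hloc hsig
    exact hhG _ x ((hG x).2 ⟨fun w hw => (hker x w hw).2 (hcmp w hw x hx hloc), hsig⟩)

theorem up_self {K : Type} [Field K] [NumberField K] (S : Finset (HeightOneSpectrum (𝓞 K))) :
    up K S = (S : Set (HeightOneSpectrum (𝓞 K))) := by
  ext w
  constructor
  · rintro ⟨v, hv, hw⟩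
    have h := Pool.Agent.Helper42.PP1.above_self hw
    subst h
    exact hv
  · intro hw
    exact ⟨w, hw, rfl⟩

theorem natDegree_one' (p : ℕ) [Fact p.Prime] : (X - 1 : (ZMod p)[X]).natDegree = 1 := by
  have h := natDegree_X_sub_C (1 : ZMod p)
  rwa [map_one] at h

/-- Existence of `TauN` for `m = 1`, with `|S| + |T|` conditions. -/
theorem ext1 {p : ℕ} [Fact p.Prime] {k : Type} [NormedField k] [NormedAlgebra ℚ_[p] k]
    [IsUltrametricDist k] [CompleteSpace k] (hk : Nonempty (AlgebraicClosure ℚ →+* k))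
    (L : IwasawaLog p k) {K K₁ : Type} [Field K] [NumberField K] [Field K₁] [NumberField K₁]
    [Algebra K K₁] [IsGalois K K₁] {ε : K₁} (hε : IsPrimitiveRoot ε p)
    (hgen : ∀ σ : K₁ ≃ₐ[K] K₁, σ ε = ε → σ = 1) (T : Set (K →+* k))
    (B : Base p K K K₁ K₁ ε (1 : K ≃ₐ[K] K) (X - 1)) (a : K₁ˣ) (haO : OmType p K ε (a : K₁))
    (hap : ∀ Q : HeightOneSpectrum (𝓞 K₁), Q.valuation K₁ (p : K₁) < 1 →
      (p : ℤ) ∣ ordv Q (a : K₁)) : Nonempty (TauN (B.S.card + T.ncard) B L T a) := by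
  refine extW (sitW_one p K K₁ ε hε hgen) L T B a haO hap _ fun 𝔪₀ v hv => ?_
  obtain ⟨G, hG, hGp, -⟩ := Pool.Agent.Helper90.RP.s_sub p k L K K (1 : K ≃ₐ[K] K) T (up K B.S)
    𝔪₀ v hv
  obtain ⟨F, hFc, hF⟩ := Pool.Agent.Helper96.LE.l_lob Pool.Agent.Helper16.LE.l_log p k hk L K T
    (up K B.S) 𝔪₀ v hv
  refine ⟨F, ?_, fun x _ => ?_, ?_⟩
  · rw [hFc, natDegree_one', one_mul, up_self, Set.ncard_coe_finset]
  · rw [← hG, pol_one]
    exact hGp _ ⟨x, rfl⟩
  · rw [Pool.Agent.Helper58.LE.above_self]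
    exact hF

end Pool.Agent.Helper94.PP1
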