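import Pool.Agent.Helper94.PP1.EXB

/-!
# Project PP, the case `m = 1`: the number of the `u i`
-/

set_option autoImplicit false

namespace Pool.Agent.Helper94.PP1

open NumberField Polynomial Module IsDedekindDomain Pool.Agent.Helper51.SigLeo
open Pool.Agent.Helper51.RP Pool.Agent.Helper42.RD Pool.Agent.Helper42.PP
open Pool.Agent.Helper11.LE (L_SUN Inc urk)
open Pool.Agent.Helper42.PP1 (SitW subs_aut freeP_self sitW_one)
open Pool.Agent.Helper64.PP (hom_prod hom_div pw_prod pol_cm pw_pol unit_pol)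

/-- An upper bound for the `P`-part of the `S`-units gives an upper bound for `B.r`. -/
theorem rankW {p : ℕ} [Fact p.Prime] {K M K₁ M₁ : Type} [Field K] [NumberField K] [Field M]
    [NumberField M] [Field K₁] [NumberField K₁] [Field M₁] [NumberField M₁] [Algebra K M]
    [Algebra K K₁] [Algebra K M₁] [Algebra M M₁] [Algebra K₁ M₁] {ε : K₁} {δ : M ≃ₐ[K] M}
    {P : (ZMod p)[X]} (hs : SitW p K M K₁ M₁ ε δ P) (B : Base p K M K₁ M₁ ε δ P) (n : ℕ)
    (upb : ∀ F : Finset Mˣ, (∀ x ∈ F, x ∈ (up M B.S).unit M ∧ Pw p (pol P δ x)) →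
      (∀ x ∈ F, ∀ y ∈ F, x ≠ y → ¬ Pw p (x / y)) → F.card ≤ p ^ (P.natDegree * n)) :
    B.r ≤ n := by
  classical
  obtain ⟨_, _, _, _, _, hprim, hgen, -, hsord, hirr, hdvdP, hcopm, hc1, hc2, hnsp, hvis⟩ := hs
  have hp : p.Prime := Fact.out
  have hδm : δ ^ finrank K M = 1 := by rw [← hsord]; exact pow_orderOf_eq_one δ
  have hm0 : 0 < finrank K M := finrank_pos
  obtain ⟨-, hst, -⟩ := Pool.Agent.Helper16.PP.p_upr p K M B.S
  obtain ⟨hF, -⟩ := Pool.Agent.Helper30.PP.p_fun p K M (finrank K M) δ P hm0 hcopm hδm hirr hdvdP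
  have hirr' : Fact (Irreducible P) := ⟨hirr⟩
  have hP0 : P ≠ 0 := hirr.ne_zero
  have hfd : FiniteDimensional (ZMod p) (AdjoinRoot P) := (AdjoinRoot.powerBasis hP0).finite
  have hfin : Finite (AdjoinRoot P) := Module.finite_of_finite (ZMod p)
  have hft : Fintype (AdjoinRoot P) := Fintype.ofFinite _
  have hcard : Fintype.card (AdjoinRoot P) = p ^ P.natDegree := by
    rw [Module.card_eq_pow_finrank (K := ZMod p) (V := AdjoinRoot P), ZMod.card,
      (AdjoinRoot.powerBasis hP0).finrank, AdjoinRoot.powerBasis_dim]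
  choose c hc using fun z : AdjoinRoot P => AdjoinRoot.mk_surjective (g := P) z
  let e : (Fin B.r → AdjoinRoot P) → Mˣ := fun z => ∏ i, pol (c (z i)) δ (B.u i)
  have hrho : ∀ z i, B.rho i (e z) = z i := by
    intro z i
    show B.rho i (∏ j, pol (c (z j)) δ (B.u j)) = z i
    rw [hom_prod (B.rhoP i).1]
    have h : ∀ j, B.rho i (pol (c (z j)) δ (B.u j)) = if i = j then z j else 0 := by
      intro j
      rw [(hF _ (B.rhoP i)).1, hc, B.rhou]
      split_ifs <;> simp
    rw [Finset.sum_congr rfl fun j _ => h j, Finset.sum_ite_eq]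
    simp
  have hinj : ∀ z z', Pw p (e z / e z') → z = z' := by
    intro z z' h
    funext i
    have h1 := (hF _ (B.rhoP i)).2 _ h
    rw [hom_div (B.rhoP i).1, hrho, hrho, sub_eq_zero] at h1
    exact h1
  have hpw1 : Pw p (1 : Mˣ) := ⟨1, (one_pow p).symm⟩
  have hinj' : Function.Injective e := by
    intro z z' h
    refine hinj z z' ?_
    rw [h, div_self']
    exact hpw1
  have hle := upb (Finset.univ.image e)
    (by
      intro x hx
      obtain ⟨z, -, rfl⟩ := Finset.mem_image.1 hx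
      refine ⟨Subgroup.prod_mem _ fun i _ => unit_pol hst δ _ (B.uS i), ?_⟩
      show Pw p (pol P δ (∏ i, pol (c (z i)) δ (B.u i)))
      rw [map_prod]
      refine pw_prod _ fun i => ?_
      rw [pol_cm]
      exact pw_pol δ _ (B.uP i))
    (by
      intro x hx y hy hxy
      obtain ⟨z, -, rfl⟩ := Finset.mem_image.1 hx
      obtain ⟨z', -, rfl⟩ := Finset.mem_image.1 hy
      intro h
      exact hxy (by rw [hinj z z' h]))
  rw [Finset.card_image_of_injective _ hinj', Finset.card_univ, Fintype.card_fun, hcard,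
    Fintype.card_fin, ← pow_mul] at hle
  have h3 := (Nat.pow_le_pow_iff_right hp.one_lt).1 hle
  exact Nat.le_of_mul_le_mul_left h3 hirr.natDegree_pos

/-- For `m = 1` there are at most `|S| + rank` (one more if `K` contains the `p`-th roots of unity)
elements `u i`. -/
theorem rank1 (hSUN : L_SUN) {p : ℕ} [Fact p.Prime] {K K₁ : Type} [Field K] [NumberField K]
    [Field K₁] [NumberField K₁] [Algebra K K₁] [IsGalois K K₁] {ε : K₁}
    (hε : IsPrimitiveRoot ε p) (hgen : ∀ σ : K₁ ≃ₐ[K] K₁, σ ε = ε → σ = 1)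
    (B : Base p K K K₁ K₁ ε (1 : K ≃ₐ[K] K) (X - 1)) : B.r ≤ B.S.card + urk p K := by
  refine rankW (sitW_one p K K₁ ε hε hgen) B _ fun F hF1 hF2 => ?_
  have h := hSUN p K (up K B.S) (by rw [up_self]; exact B.S.finite_toSet) F
    ⟨fun x hx => (hF1 x hx).1, hF2⟩
  have e : (up K B.S).ncard = B.S.card := by rw [up_self, Set.ncard_coe_finset]
  rwa [natDegree_one', one_mul, ← e]

/-- The same if `K` does not contain the `p`-th roots of unity. -/
theorem rank1' (hSUN : L_SUN) {p : ℕ} [Fact p.Prime] {K K₁ : Type} [Field K] [NumberField K]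
    [Field K₁] [NumberField K₁] [Algebra K K₁] [IsGalois K K₁] {ε : K₁}
    (hε : IsPrimitiveRoot ε p) (hgen : ∀ σ : K₁ ≃ₐ[K] K₁, σ ε = ε → σ = 1)
    (hμ : ¬ ∃ ξ : K, IsPrimitiveRoot ξ p)
    (B : Base p K K K₁ K₁ ε (1 : K ≃ₐ[K] K) (X - 1)) : B.r ≤ B.S.card + Units.rank K := by
  have h := rank1 hSUN hε hgen B
  have e : urk p K = Units.rank K := by
    unfold urk
    rw [if_neg hμ, add_zero]
  rwa [e] at h

end Pool.Agent.Helper94.PP1
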